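import Pool.Agent.H31.Rog

namespace Pool.Agent.Results.MP_376bf0_nt.NoLimit

open Finset Filter Topology H31.Rog

/-- the iterated remainder sets `S_j(n)` -/
def S (n : ℕ) : ℕ → Finset ℕ
  | 0 => Icc 1 (n / 2)
  | j + 1 => ((S n j).erase 0).image (n % ·)

theorem fwd {n : ℕ} (j : ℕ) : ∀ r ∈ S n j, 0 < r →
    ∃ q m e, C j q m e ∧ r * (q + 1) ≤ n ∧ (m : ℤ) ∣ r - n * e := by
  induction j with
  | zero => exact fun r h _ => ⟨1, 1, 0, .z, by simp only [S, mem_Icc] at h; omega, by simp⟩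
  | succ j ih =>
    intro r h _
    obtain ⟨k, hk, rfl⟩ := mem_image.1 h
    have k0 := Nat.pos_of_ne_zero (mem_erase.1 hk).1
    obtain ⟨q, m, e, c, l, t, d⟩ := ih k (mem_erase.1 hk).2 k0
    have := Nat.mod_add_div n k
    have := Nat.mod_lt n k0
    refine ⟨n / k, _, _, c.s _ ((Nat.le_div_iff_mul_le k0).2 (by rwa [mul_comm])), ?_, -t, ?_⟩
    · nlinarith [Nat.mul_le_mul_right (n / k) this.le]
    · generalize n / k = a at *
      generalize n % k = b at *
      subst_vars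
      push_cast at d ⊢
      linear_combination -a * d

theorem bwd {n j q m : ℕ} {e : ℤ} (c : C j q m e) : ∀ r, 0 < r → r * (q + 1) < n →
    (m : ℤ) ∣ r - n * e → r ∈ S n j := by
  induction c with
  | z => exact fun r h l _ => by simp only [S, mem_Icc]; omega
  | @s j q' m e q _ lt ih =>
    rintro r h l ⟨t, d⟩
    push_cast at d
    have q0 : (0 : ℤ) < q := by omega
    have hk : (n : ℤ) = r + q * (n * e - m * t) := by linear_combination -d
    have l' : (r : ℤ) * (q + 1) < n := by exact_mod_cast l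
    have rk : (r : ℤ) < n * e - m * t := lt_of_mul_lt_mul_left (by linarith) q0.le
    obtain ⟨k, ek⟩ := Int.eq_ofNat_of_zero_le (show 0 ≤ n * e - m * t by omega)
    rw [ek] at hk rk
    have hk' : n = r + k * q := by zify; linarith
    refine mem_image.2 ⟨k, mem_erase.2 ⟨by omega, ih k (by omega) ?_ ⟨-t, by linarith⟩⟩, ?_⟩
    · nlinarith [Nat.mul_le_mul_left k lt]
    · rw [hk', Nat.add_mul_mod_self_left, Nat.mod_eq_of_lt (by omega)]

theorem S_le (n j : ℕ) : ∀ r ∈ S n j, r ≤ n := by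
  cases j with
  | zero => exact fun r h => by simp only [S, mem_Icc] at h; omega
  | succ j => exact fun r h => by obtain ⟨k, -, rfl⟩ := mem_image.1 h; exact Nat.mod_le _ _

theorem block {j R t v : ℕ} (hv : 1 ≤ v) (hR : t / (v + 1) ≤ R) :
    #{x ∈ S (R.factorial * t) j | x / R.factorial = v + 1} ≤
      N R.factorial (fun x => ∃ i, G j (t / (v + 1)) i ∧ (i.1 : ℤ) ∣ x - 0) ∧
    N R.factorial (fun x => ∃ i, G j (t / (v + 1)) i ∧ (i.1 : ℤ) ∣ x - i.2) ≤
      #{x ∈ S (R.factorial * t + 1) j | x / R.factorial = v} := by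
  classical
  have L0 := R.factorial_pos
  have dv : ∀ i, G j (t / (v + 1)) i → i.1 ∣ R.factorial := fun i ⟨q, l, c⟩ =>
    c.le.2.trans (Nat.factorial_dvd_factorial (by omega))
  generalize R.factorial = L at *
  have p := fun (s : ℕ × ℤ → ℤ) (b : ℕ) => win (L := L) b
    (p := fun x => ∃ i, G j (t / (v + 1)) i ∧ (i.1 : ℤ) ∣ x - s i) fun x =>
      exists_congr fun i => and_congr_right fun hi => per (dv i hi) _ x
  have dv' : ∀ i, G j (t / (v + 1)) i → (i.1 : ℤ) ∣ L * t * i.2 := fun i hi =>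
    ((Int.natCast_dvd_natCast.2 (dv i hi)).mul_right _).mul_right _
  constructor
  · rw [← p (fun _ => 0) ((v + 1) * L)]
    refine card_le_card fun x hx => ?_
    obtain ⟨h1, h2⟩ := mem_filter.1 hx
    have h3 := (Nat.le_div_iff_mul_le L0).1 h2.ge
    have h4 := (Nat.div_lt_iff_lt_mul L0).1 (Nat.lt_succ_of_le h2.le)
    obtain ⟨q, m, e, c, l, d⟩ := fwd j x h1 (lt_of_lt_of_le (by positivity) h3)
    have g : G j (t / (v + 1)) (m, e) := ⟨q, (Nat.le_div_iff_mul_le (by omega)).2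
      (Nat.le_of_mul_le_mul_left (by nlinarith [Nat.mul_le_mul_right (q + 1) h3]) L0), c⟩
    refine mem_filter.2 ⟨mem_Ico.2 ⟨h3, by rwa [Nat.succ_mul] at h4⟩, _, g, ?_⟩
    simpa using dvd_add d (dv' _ g)
  · rw [← p (·.2) (v * L)]
    refine card_le_card fun x hx => ?_
    obtain ⟨h1, i, g, d⟩ := mem_filter.1 hx
    obtain ⟨h3, h4⟩ := mem_Ico.1 h1
    obtain ⟨q, l, c⟩ := id g
    have := (Nat.le_div_iff_mul_le (by omega)).1 l
    refine mem_filter.2 ⟨bwd c x (lt_of_lt_of_le (by positivity) h3) ?_ ?_,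
      Nat.div_eq_of_lt_le h3 (by rwa [Nat.succ_mul])⟩
    · nlinarith [Nat.mul_le_mul_right (q + 1) h4.le, Nat.mul_le_mul_left L this]
    · have := dvd_sub d (dv' _ g)
      push_cast
      rwa [show (x : ℤ) - (L * t + 1) * i.2 = x - i.2 - L * t * i.2 by ring]

theorem jump (j : ℕ) : ∃ K D : ℕ, 0 < K ∧ 0 < D ∧ ∀ τ, 1 ≤ τ →
    #(S (K * D * τ) (j + 2)) + K * τ ≤ #(S (K * D * τ + 1) (j + 2)) := by
  obtain ⟨a, ha⟩ : ∃ a, a = (j + 5) * (j + 6) := ⟨_, rfl⟩
  obtain ⟨M, hM⟩ : ∃ M, M = (j + 4).factorial := ⟨_, rfl⟩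
  have M0 : 0 < M := hM ▸ Nat.factorial_pos _
  obtain ⟨R, hR⟩ : ∃ R, R = M * (a + 2) := ⟨_, rfl⟩
  have R0 : j + 6 ≤ R := by nlinarith
  obtain ⟨c, hc⟩ : M ∣ R.factorial := hM ▸ Nat.factorial_dvd_factorial (by omega)
  have L0 := R.factorial_pos
  have a0 : 0 < a := by rw [ha]; positivity
  refine ⟨R.factorial, a * R, L0, Nat.mul_pos a0 (by omega), fun τ hτ => ?_⟩
  obtain ⟨t, ht⟩ : ∃ t, t = a * R * τ := ⟨_, rfl⟩
  rw [mul_assoc, ← ht]
  have i1 : a * τ ≤ (j + 5) * R * τ := ha ▸ Nat.mul_le_mul_right _ (Nat.mul_le_mul_left _ R0)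
  have i2 : t = (j + 5) * ((j + 6) * R * τ) := by rw [ht, ha]; ring
  have i3 : t = (j + 6) * ((j + 5) * R * τ) := by rw [ht, ha]; ring
  have i4 : (j + 6) * R * τ ≤ t := i2 ▸ Nat.le_mul_of_pos_left _ (by omega)
  have i5 : 0 < a * τ := Nat.mul_pos a0 hτ
  have i6 : (j + 6) * R * τ = (j + 5) * R * τ + R * τ := by ring
  have i7 : ∀ v, ¬ v < a * τ → t / (v + 1) ≤ R := fun v h => Nat.div_le_of_le_mul (by
    rw [ht, mul_right_comm]; exact Nat.mul_le_mul_right _ (by omega))
  have fib : ∀ n ≤ R.factorial * t + 1, #(S n (j + 2)) =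
      ∑ u ∈ range (t + 1 + 1), #{x ∈ S n (j + 2) | x / R.factorial = u} := fun n hn =>
    card_eq_sum_card_fiberwise fun x hx => mem_coe.2 (mem_range.2 ((Nat.div_lt_iff_lt_mul L0).2
      (by nlinarith [S_le n _ x hx])))
  have triv : ∀ n u, #{x ∈ S n (j + 2) | x / R.factorial = u} ≤ R.factorial := fun n u => by
    refine (card_le_card fun x hx => ?_).trans
      (Nat.card_Ico (u * R.factorial) (u * R.factorial + R.factorial)).le |>.trans (by omega)
    have h2 := (mem_filter.1 hx).2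
    have h4 := (Nat.div_lt_iff_lt_mul L0).1 (Nat.lt_succ_of_le h2.le)
    exact mem_Ico.2 ⟨(Nat.le_div_iff_mul_le L0).1 h2.ge, by rwa [Nat.succ_mul] at h4⟩
  have key : ∀ v ∈ range (t + 1), #{x ∈ S (R.factorial * t) (j + 2) | x / R.factorial = v + 1} +
      (if v ∈ Ico ((j + 5) * R * τ) ((j + 6) * R * τ) then c else 0) ≤
      #{x ∈ S (R.factorial * t + 1) (j + 2) | x / R.factorial = v} +
      if v ∈ range (a * τ) then R.factorial else 0 := fun v _ => by
    by_cases h : v < a * τ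
    · rw [if_neg (fun k => by have := (mem_Ico.1 k).1; omega), if_pos (mem_range.2 h)]
      exact (triv _ _).trans (Nat.le_add_left _ _)
    rw [if_neg (mt mem_range.1 h), add_zero]
    have b := block (j := j + 2) (R := R) (t := t) (v := v) (by omega) (i7 v h)
    split_ifs with k
    · obtain ⟨k1, k2⟩ := mem_Ico.1 k
      have e : t / (v + 1) = j + 5 := Nat.div_eq_of_lt_le
        (i2 ▸ Nat.mul_le_mul_left _ k2) (i3 ▸ Nat.mul_lt_mul_of_pos_left (by omega) (by omega))
      rw [e] at b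
      have g := gain (j := j) (c := c)
      rw [← hM, ← hc] at g
      omega
    · exact b.1.trans ((rogers _ _ _ _ fun i ⟨q, l, c⟩ => c.le.2.trans (Nat.factorial_dvd_factorial
        (l.le.trans (i7 v h)))).trans b.2)
  have s := sum_le_sum key
  rw [sum_add_distrib, sum_add_distrib, sum_ite_mem, sum_ite_mem, sum_const, sum_const,
    inter_eq_right.2 (fun v hv => mem_range.2 (by have := (mem_Ico.1 hv).2; omega)),
    inter_eq_right.2 (range_subset_range.2 (by omega)), card_range, Nat.card_Ico,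
    show (j + 6) * R * τ - (j + 5) * R * τ = R * τ by omega,
    smul_eq_mul, smul_eq_mul] at s
  rw [fib _ (by omega), fib _ le_rfl, sum_range_succ', sum_range_succ _ (t + 1)]
  have := triv (R.factorial * t) 0
  have e : R * τ * c = a * τ * R.factorial + 2 * (R.factorial * τ) := by rw [hc, hR]; ring
  have := Nat.le_mul_of_pos_right R.factorial hτ
  omega

theorem result (j : ℕ) (hj : 2 ≤ j) : liminf (fun n : ℕ => (#(S n j) : ℝ) / n) atTop <
    limsup (fun n : ℕ => (#(S n j) : ℝ) / n) atTop := by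
  obtain ⟨j, rfl⟩ : ∃ k, j = k + 2 := ⟨j - 2, by omega⟩
  obtain ⟨K, D, K0, D0, h⟩ := jump j
  by_contra c
  have b : ∀ n : ℕ, (#(S n (j + 2)) : ℝ) / n ≤ 2 := fun n => by
    have : #(S n (j + 2)) ≤ n + 1 := (card_le_card fun x hx =>
      mem_range.2 (Nat.lt_succ_of_le (S_le n _ x hx))).trans (card_range _).le
    rcases n.eq_zero_or_pos with rfl | h
    · simp
    · exact div_le_of_le_mul₀ (by positivity) zero_le_two (by exact_mod_cast (by omega))
  have T := tendsto_of_le_liminf_of_limsup_le le_rfl (not_lt.1 c) (isBoundedUnder_of ⟨2, b⟩)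
    (isBoundedUnder_of ⟨0, fun n => by positivity⟩)
  have u : Tendsto (fun τ : ℕ => K * D * τ) atTop atTop :=
    tendsto_id.const_mul_atTop' (Nat.mul_pos K0 D0)
  have T1 := ((T.comp u).add_const (1 / D : ℝ)).mul ((tendsto_natCast_div_add_atTop (1 : ℝ)).comp u)
  have := le_of_tendsto_of_tendsto T1 (T.comp ((tendsto_add_atTop_nat 1).comp u)) (by
    filter_upwards [eventually_ge_atTop 1] with τ hτ
    have k : (#(S (K * D * τ) (j + 2)) : ℝ) + K * τ ≤ #(S (K * D * τ + 1) (j + 2)) := by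
      exact_mod_cast h τ hτ
    simp only [Function.comp]
    push_cast
    rw [← mul_div_assoc]
    gcongr
    refine le_trans (le_of_eq ?_) k
    field_simp)
  have : (0 : ℝ) < 1 / D := by positivity
  linarith

end Pool.Agent.Results.MP_376bf0_nt.NoLimit
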